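import Mathlib
import Pool.Agent.W232.FC.Fin2

/-!
The general count of solutions with `S`-unit coefficients, copied from
`Pool.Agent.Results.MP_509488_nt.SolutionCount` (helper529), as a helper for the Beal equation.
-/

namespace Pool.Agent.W508.Beal

open Finset

/-- The theorem of Darmon and Granville: for fixed exponents `p`, `q`, `r` with
`1 / p + 1 / q + 1 / r < 1` and fixed nonzero integers `a`, `b`, `c` only finitely many positive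
integers `x`, `y`, `z` with `gcd (x, y, z) = 1` satisfy `a x ^ p + b y ^ q + c z ^ r = 0`. -/
def DarmonGranville : Prop :=
  ∀ a b c : ℤ, a ≠ 0 → b ≠ 0 → c ≠ 0 → ∀ p q r : ℕ, 2 ≤ p → 2 ≤ q → 2 ≤ r →
    (1 : ℚ) / p + 1 / q + 1 / r < 1 →
    {v : ℕ × ℕ × ℕ | 0 < v.1 ∧ 0 < v.2.1 ∧ 0 < v.2.2 ∧ Nat.gcd v.1 (Nat.gcd v.2.1 v.2.2) = 1 ∧
      a * (v.1 : ℤ) ^ p + b * (v.2.1 : ℤ) ^ q + c * (v.2.2 : ℤ) ^ r = 0}.Finite

/-- The nonzero integer `n` is `u * x ^ p` with an integer `x` and an integer `u` all of whose prime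
divisors are in `S`. -/
def SPower (S : Finset ℕ) (p : ℕ) (n : ℤ) : Prop :=
  n ≠ 0 ∧ ∃ u x : ℤ, n = u * x ^ p ∧ ∀ ℓ : ℕ, ℓ.Prime → (ℓ : ℤ) ∣ u → ℓ ∈ S

/-- The triples `(A, B, C)` of nonzero coprime integers with absolute values at most `N` and
`A + B = C`, such that for some `p, q, r ≥ 2` with `1 / p + 1 / q + 1 / r < 1` (which may depend on
the triple) `A`, `B`, `C` are a `p`-th, a `q`-th, an `r`-th power, each times an integer composed of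
primes of `S`. -/
def Solutions (S : Finset ℕ) (N : ℕ) : Set (ℤ × ℤ × ℤ) :=
  {t | t.1 + t.2.1 = t.2.2 ∧ |t.1| ≤ N ∧ |t.2.1| ≤ N ∧ |t.2.2| ≤ N ∧ IsCoprime t.1 t.2.1 ∧
    ∃ p q r : ℕ, 2 ≤ p ∧ 2 ≤ q ∧ 2 ≤ r ∧ (1 : ℚ) / p + 1 / q + 1 / r < 1 ∧
      SPower S p t.1 ∧ SPower S q t.2.1 ∧ SPower S r t.2.2}

/-- power-free decomposition -/
theorem nat_decomp (S : Finset ℕ) (p : ℕ) (hp : 1 ≤ p) (hS : ∀ ℓ ∈ S, 1 ≤ ℓ) (n : ℕ) (hn : n ≠ 0)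
    (h : ∀ ℓ : ℕ, ℓ.Prime → ℓ ∣ n → ℓ ∈ S) :
    ∃ u₀ u₁ : ℕ, 1 ≤ u₀ ∧ 1 ≤ u₁ ∧ n = u₀ * u₁ ^ p ∧ u₀ ≤ (∏ ℓ ∈ S, ℓ) ^ p := by
  refine ⟨∏ ℓ ∈ n.primeFactors, ℓ ^ (n.factorization ℓ % p),
    ∏ ℓ ∈ n.primeFactors, ℓ ^ (n.factorization ℓ / p), ?_, ?_, ?_, ?_⟩
  · exact Nat.one_le_iff_ne_zero.2 (Finset.prod_ne_zero_iff.2 fun ℓ hℓ =>
      pow_ne_zero _ (Nat.prime_of_mem_primeFactors hℓ).ne_zero)
  · exact Nat.one_le_iff_ne_zero.2 (Finset.prod_ne_zero_iff.2 fun ℓ hℓ =>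
      pow_ne_zero _ (Nat.prime_of_mem_primeFactors hℓ).ne_zero)
  · rw [← Finset.prod_pow, ← Finset.prod_mul_distrib]
    conv_lhs => rw [← Nat.prod_factorization_pow_eq_self hn]
    rw [Finsupp.prod, Nat.support_factorization]
    refine Finset.prod_congr rfl fun ℓ _ => ?_
    rw [← pow_mul, ← pow_add]
    congr 1
    rw [mul_comm (n.factorization ℓ / p) p]
    exact (Nat.mod_add_div _ _).symm
  · have h1 : n.primeFactors ⊆ S := fun ℓ hℓ =>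
      h ℓ (Nat.prime_of_mem_primeFactors hℓ) (Nat.dvd_of_mem_primeFactors hℓ)
    calc ∏ ℓ ∈ n.primeFactors, ℓ ^ (n.factorization ℓ % p)
        ≤ ∏ ℓ ∈ n.primeFactors, ℓ ^ p := by
          refine Finset.prod_le_prod' fun ℓ hℓ => ?_
          exact Nat.pow_le_pow_right (Nat.prime_of_mem_primeFactors hℓ).pos
            (Nat.mod_lt _ (by omega)).le
      _ ≤ ∏ ℓ ∈ S, ℓ ^ p := by
          refine Finset.prod_le_prod_of_subset_of_one_le' h1 fun ℓ hℓ _ => ?_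
          exact Nat.one_le_pow _ _ (hS ℓ hℓ)
      _ = (∏ ℓ ∈ S, ℓ) ^ p := by rw [Finset.prod_pow]

theorem spower_decomp {S : Finset ℕ} {p : ℕ} {n : ℤ} (hp : 1 ≤ p) (hS : ∀ ℓ ∈ S, 1 ≤ ℓ)
    (h : SPower S p n) : ∃ (a : ℤ) (x : ℕ), a ≠ 0 ∧ 0 < x ∧ n = a * (x : ℤ) ^ p ∧
      a.natAbs ≤ (∏ ℓ ∈ S, ℓ) ^ p := by
  obtain ⟨hn, u, x, rfl, hu⟩ := h
  have hu0 : u ≠ 0 := by rintro rfl; simp at hn
  have hx0 : x ≠ 0 := by
    rintro rfl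
    apply hn
    rw [zero_pow (by omega), mul_zero]
  obtain ⟨u₀, u₁, h0, h1, h2, h3⟩ := nat_decomp S p hp hS u.natAbs (Int.natAbs_ne_zero.2 hu0)
    (fun ℓ hℓ hd => hu ℓ hℓ (Int.natCast_dvd.2 hd))
  refine ⟨(u * x ^ p).sign * u₀, u₁ * x.natAbs, ?_, ?_, ?_, ?_⟩
  · exact mul_ne_zero (fun h0 => hn (Int.sign_eq_zero_iff_zero.1 h0)) (by exact_mod_cast (by omega : u₀ ≠ 0))
  · exact Nat.mul_pos (by omega) (Int.natAbs_pos.2 hx0)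
  · have h4 : (((u * x ^ p).natAbs : ℕ) : ℤ) = (u₀ : ℤ) * ((u₁ * x.natAbs : ℕ) : ℤ) ^ p := by
      rw [Int.natAbs_mul, Int.natAbs_pow, h2]
      push_cast
      ring
    calc u * x ^ p = (u * x ^ p).sign * (((u * x ^ p).natAbs : ℕ) : ℤ) :=
          (Int.sign_mul_natAbs _).symm
      _ = _ := by rw [h4]; ring
  · rw [Int.natAbs_mul, Int.natAbs_sign_of_ne_zero hn, one_mul, Int.natAbs_natCast]
    exact h3

theorem finite_bounded (hDG : DarmonGranville) (S : Finset ℕ) (hS : ∀ ℓ ∈ S, 1 ≤ ℓ) (R : ℕ) :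
    {t : ℤ × ℤ × ℤ | t.1 + t.2.1 = t.2.2 ∧ IsCoprime t.1 t.2.1 ∧
    ∃ p q r : ℕ, 2 ≤ p ∧ 2 ≤ q ∧ 2 ≤ r ∧ (1 : ℚ) / p + 1 / q + 1 / r < 1 ∧
      SPower S p t.1 ∧ SPower S q t.2.1 ∧ SPower S r t.2.2 ∧ p < R ∧ q < R ∧ r < R}.Finite := by
  classical
  let B : ℤ := (∏ ℓ ∈ S, ℓ : ℕ) ^ R
  have hP1 : 1 ≤ ∏ ℓ ∈ S, ℓ := Nat.one_le_iff_ne_zero.2 (Finset.prod_ne_zero_iff.2 fun ℓ hℓ => by
    have := hS ℓ hℓ
    omega)
  have h1 : (⋃ w ∈ (Finset.range R ×ˢ Finset.range R ×ˢ Finset.range R : Finset (ℕ × ℕ × ℕ)),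
      ⋃ c ∈ (Finset.Icc (-B) B ×ˢ Finset.Icc (-B) B ×ˢ Finset.Icc (-B) B : Finset (ℤ × ℤ × ℤ)),
      (fun u : ℕ × ℕ × ℕ => (c.1 * (u.1 : ℤ) ^ w.1, c.2.1 * (u.2.1 : ℤ) ^ w.2.1,
        -(c.2.2 * (u.2.2 : ℤ) ^ w.2.2))) ''
      {u : ℕ × ℕ × ℕ | (2 ≤ w.1 ∧ 2 ≤ w.2.1 ∧ 2 ≤ w.2.2 ∧
          (1 : ℚ) / w.1 + 1 / w.2.1 + 1 / w.2.2 < 1 ∧ c.1 ≠ 0 ∧ c.2.1 ≠ 0 ∧ c.2.2 ≠ 0) ∧
        0 < u.1 ∧ 0 < u.2.1 ∧ 0 < u.2.2 ∧ Nat.gcd u.1 (Nat.gcd u.2.1 u.2.2) = 1 ∧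
        c.1 * (u.1 : ℤ) ^ w.1 + c.2.1 * (u.2.1 : ℤ) ^ w.2.1 +
          c.2.2 * (u.2.2 : ℤ) ^ w.2.2 = 0}).Finite := by
    refine Set.Finite.biUnion (Finset.finite_toSet _) fun w _ =>
      Set.Finite.biUnion (Finset.finite_toSet _) fun c _ => Set.Finite.image _ ?_
    by_cases h : 2 ≤ w.1 ∧ 2 ≤ w.2.1 ∧ 2 ≤ w.2.2 ∧ (1 : ℚ) / w.1 + 1 / w.2.1 + 1 / w.2.2 < 1 ∧
        c.1 ≠ 0 ∧ c.2.1 ≠ 0 ∧ c.2.2 ≠ 0
    · refine (hDG c.1 c.2.1 c.2.2 h.2.2.2.2.1 h.2.2.2.2.2.1 h.2.2.2.2.2.2 w.1 w.2.1 w.2.2 h.1 h.2.1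
        h.2.2.1 h.2.2.2.1).subset ?_
      rintro u ⟨-, hu⟩
      exact hu
    · convert Set.finite_empty
      ext u
      simp only [Set.mem_ofPred_eq, Set.mem_empty_iff_false, iff_false]
      exact fun hu => h hu.1
  refine h1.subset ?_
  rintro ⟨A, B', C⟩ ⟨hsum, hcop, p, q, r, hp, hq, hr, hpqr, hA, hB, hC, hpR, hqR, hrR⟩
  simp only at hsum hcop hA hB hC
  obtain ⟨a, x, ha, hx, rfl, ha'⟩ := spower_decomp (by omega) hS hA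
  obtain ⟨b, y, hb, hy, rfl, hb'⟩ := spower_decomp (by omega) hS hB
  obtain ⟨c, z, hc, hz, rfl, hc'⟩ := spower_decomp (by omega) hS hC
  have hbd : ∀ (d : ℤ) (k : ℕ), k < R → d.natAbs ≤ (∏ ℓ ∈ S, ℓ) ^ k → -B ≤ d ∧ d ≤ B := by
    intro d k hk hd
    have h2 : (d.natAbs : ℤ) ≤ B := by
      have h3 : d.natAbs ≤ (∏ ℓ ∈ S, ℓ) ^ R := hd.trans (Nat.pow_le_pow_right hP1 hk.le)
      simp only [B]
      exact_mod_cast h3
    omega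
  simp only [Set.mem_iUnion]
  refine ⟨(p, q, r), by simp [hpR, hqR, hrR], (a, b, -c), ?_, (x, y, z),
    ⟨⟨hp, hq, hr, hpqr, ha, hb, neg_ne_zero.2 hc⟩, hx, hy, hz, ?_, ?_⟩, ?_⟩
  · have e1 := hbd a p hpR ha'
    have e2 := hbd b q hqR hb'
    have e3 := hbd c r hrR hc'
    simp only [Finset.mem_product, Finset.mem_Icc]
    omega
  · by_contra hg
    obtain ⟨ℓ, hℓ, hd⟩ := Nat.exists_prime_and_dvd hg
    have d1 : ℓ ∣ x := hd.trans (Nat.gcd_dvd_left _ _)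
    have d2 : ℓ ∣ y := (hd.trans (Nat.gcd_dvd_right _ _)).trans (Nat.gcd_dvd_left _ _)
    have e1 : (ℓ : ℤ) ∣ a * (x : ℤ) ^ p :=
      Dvd.dvd.mul_left (dvd_pow (Int.natCast_dvd_natCast.2 d1) (by omega)) _
    have e2 : (ℓ : ℤ) ∣ b * (y : ℤ) ^ q :=
      Dvd.dvd.mul_left (dvd_pow (Int.natCast_dvd_natCast.2 d2) (by omega)) _
    have h2 := hcop.isUnit_of_dvd' e1 e2
    rw [Int.isUnit_iff] at h2
    have h3 := hℓ.two_le
    omega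
  · change a * (x : ℤ) ^ p + b * (y : ℤ) ^ q + -c * (z : ℤ) ^ r = 0
    rw [hsum]
    ring
  · simp only [neg_mul, neg_neg]


theorem base_le {x : ℤ} {u : ℤ} {p R N : ℕ} (hR : 1 ≤ R) (hp : R ≤ p) (hn : u * x ^ p ≠ 0)
    (h : |u * x ^ p| ≤ N) : (x.natAbs : ℝ) ≤ (N : ℝ) ^ ((1 : ℝ) / R) := by
  have hu0 : u ≠ 0 := by rintro rfl; simp at hn
  have hx0 : x ≠ 0 := by
    rintro rfl
    apply hn
    rw [zero_pow (by omega), mul_zero]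
  have hx1 : 1 ≤ x.natAbs := Int.natAbs_pos.2 hx0
  have hu1 : 1 ≤ u.natAbs := Int.natAbs_pos.2 hu0
  have h0 : (u * x ^ p).natAbs ≤ N := by
    rw [Int.abs_eq_natAbs] at h
    exact_mod_cast h
  rw [Int.natAbs_mul, Int.natAbs_pow] at h0
  have h1 : x.natAbs ^ R ≤ N :=
    (Nat.pow_le_pow_right hx1 hp).trans ((Nat.le_mul_of_pos_left _ hu1).trans h0)
  have h2 : ((x.natAbs : ℝ) ^ R) ≤ N := by exact_mod_cast h1
  have h3 : (x.natAbs : ℝ) = ((x.natAbs : ℝ) ^ R) ^ ((1 : ℝ) / R) := by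
    rw [← Real.rpow_natCast, ← Real.rpow_mul (by positivity)]
    rw [mul_one_div_cancel (by positivity), Real.rpow_one]
  rw [h3]
  exact Real.rpow_le_rpow (by positivity) h2 (by positivity)

theorem rad_le {S : Finset ℕ} (hS : ∀ ℓ ∈ S, 1 ≤ ℓ) {u : ℤ}
    (hu : ∀ ℓ : ℕ, ℓ.Prime → (ℓ : ℤ) ∣ u → ℓ ∈ S) :
    Pool.Agent.W232.FC.rad u.natAbs ≤ ∏ ℓ ∈ S, ℓ := by
  unfold Pool.Agent.W232.FC.rad
  refine Finset.prod_le_prod_of_subset_of_one_le' (fun ℓ hℓ => ?_) fun ℓ hℓ _ => hS ℓ hℓ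
  exact hu ℓ (Nat.prime_of_mem_primeFactors hℓ)
    (Int.natCast_dvd.2 (Nat.dvd_of_mem_primeFactors hℓ))

theorem sols_finite (S : Finset ℕ) (N : ℕ) : (Solutions S N).Finite := by
  refine Set.Finite.subset ((Set.finite_Icc (-(N : ℤ)) N).prod
    ((Set.finite_Icc (-(N : ℤ)) N).prod (Set.finite_Icc (-(N : ℤ)) N))) ?_
  rintro ⟨x, y, z⟩ ⟨-, h1, h2, h3, -⟩
  simp only [abs_le] at h1 h2 h3
  simp only [Set.mem_prod, Set.mem_Icc]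
  exact ⟨h1, h2, h3⟩

theorem main_general (hDG : DarmonGranville) (S : Finset ℕ) (hS : ∀ ℓ ∈ S, 1 ≤ ℓ)
    (ε : ℝ) (hε : 0 < ε) : ∃ C : ℝ, ∀ N : ℕ, 1 ≤ N →
      ((Solutions S N).ncard : ℝ) ≤ C * (N : ℝ) ^ ε := by
  classical
  obtain ⟨δ, hδ, X₀, hX₀⟩ := Pool.Agent.W232.FC.sparseC ε hε
  obtain ⟨R, hR⟩ : ∃ R : ℕ, 1 / δ ≤ R := exists_nat_ge _
  have hR0 : (0 : ℝ) < R := lt_of_lt_of_le (by positivity) hR
  have hR1 : 1 ≤ R := by exact_mod_cast hR0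
  have hRδ : (1 : ℝ) / R ≤ δ := by
    rw [div_le_iff₀ hR0]
    rw [div_le_iff₀ hδ] at hR
    linarith
  obtain ⟨N₁, hN₁⟩ : ∃ N₁ : ℕ, ((∏ ℓ ∈ S, ℓ : ℕ) : ℝ) ^ ((1 : ℝ) / δ) ≤ N₁ := exists_nat_ge _
  let N₂ : ℕ := X₀ + N₁ + 1
  let F := {t : ℤ × ℤ × ℤ | t.1 + t.2.1 = t.2.2 ∧ IsCoprime t.1 t.2.1 ∧
    ∃ p q r : ℕ, 2 ≤ p ∧ 2 ≤ q ∧ 2 ≤ r ∧ (1 : ℚ) / p + 1 / q + 1 / r < 1 ∧
      SPower S p t.1 ∧ SPower S q t.2.1 ∧ SPower S r t.2.2 ∧ p < R ∧ q < R ∧ r < R}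
  have hF : F.Finite := finite_bounded hDG S hS R
  refine ⟨F.ncard + 1 + (Solutions S N₂).ncard, fun N hN => ?_⟩
  have hN' : (1 : ℝ) ≤ N := by exact_mod_cast hN
  have hNε : (1 : ℝ) ≤ (N : ℝ) ^ ε := Real.one_le_rpow hN' hε.le
  by_cases hNN : N ≤ N₂
  · have h1 : Solutions S N ⊆ Solutions S N₂ := by
      rintro t ⟨h1, h2, h3, h4, h5⟩
      have h6 : (N : ℤ) ≤ N₂ := by exact_mod_cast hNN
      exact ⟨h1, h2.trans h6, h3.trans h6, h4.trans h6, h5⟩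
    have h2 : ((Solutions S N).ncard : ℝ) ≤ (Solutions S N₂).ncard := by
      exact_mod_cast Set.ncard_le_ncard h1 (sols_finite S N₂)
    have h3 : (0 : ℝ) ≤ F.ncard := by positivity
    have h4 : (0 : ℝ) ≤ (Solutions S N₂).ncard := by positivity
    nlinarith
  · push Not at hNN
    have hX : X₀ ≤ N := by omega
    have h1 := hX₀ N hX
    have hSN : ((∏ ℓ ∈ S, ℓ : ℕ) : ℝ) ≤ (N : ℝ) ^ δ := by
      have h2 : ((∏ ℓ ∈ S, ℓ : ℕ) : ℝ) ^ ((1 : ℝ) / δ) ≤ N := by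
        refine hN₁.trans ?_
        have : N₁ ≤ N := by omega
        exact_mod_cast this
      have h3 := Real.rpow_le_rpow (by positivity) h2 hδ.le
      rwa [← Real.rpow_mul (by positivity), one_div_mul_cancel hδ.ne', Real.rpow_one] at h3
    have hsub : Solutions S N ⊆ F ∪ Pool.Agent.W232.FC.SolC N ((N : ℝ) ^ δ) := by
      rintro ⟨A, B, C⟩ ⟨hsum, hA', hB', hC', hcop, p, q, r, hp, hq, hr, hpqr, hA, hB, hC⟩
      simp only at hsum hA' hB' hC' hcop hA hB hC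
      by_cases hlt : p < R ∧ q < R ∧ r < R
      · left
        exact ⟨hsum, hcop, p, q, r, hp, hq, hr, hpqr, hA, hB, hC, hlt.1, hlt.2.1, hlt.2.2⟩
      · right
        obtain ⟨hA0, u, x, rfl, hu⟩ := hA
        obtain ⟨hB0, v, y, rfl, hv⟩ := hB
        obtain ⟨hC0, w, z, rfl, hw⟩ := hC
        have nz : ∀ {u x : ℤ} {p : ℕ}, 2 ≤ p → u * x ^ p ≠ 0 → u ≠ 0 ∧ x ≠ 0 := by
          intro u x p hp h
          refine ⟨by rintro rfl; simp at h, ?_⟩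
          rintro rfl
          apply h
          rw [zero_pow (by omega), mul_zero]
        have nA := nz hp hA0
        have nB := nz hq hB0
        have nC := nz hr hC0
        have hle : ∀ {m : ℤ}, |m| ≤ N → m.natAbs ≤ N := by
          intro m hm
          rw [Int.abs_eq_natAbs] at hm
          exact_mod_cast hm
        have hrad : ∀ {u : ℤ}, u ≠ 0 → (∀ ℓ : ℕ, ℓ.Prime → (ℓ : ℤ) ∣ u → ℓ ∈ S) →
            (Pool.Agent.W232.FC.rad u.natAbs : ℝ) ≤ (N : ℝ) ^ δ := by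
          intro u _ hu
          refine le_trans ?_ hSN
          exact_mod_cast rad_le hS hu
        have hmono : (N : ℝ) ^ ((1 : ℝ) / R) ≤ (N : ℝ) ^ δ :=
          Real.rpow_le_rpow_of_exponent_le hN' hRδ
        refine ⟨hsum, hle hA', hle hB', hle hC', u, v, w, x, y, z, p, q, r, nA.1, nB.1, nC.1,
          nA.2, nB.2, nC.2, hp, hq, hr, rfl, hrad nA.1 hu, hrad nB.1 hv, hrad nC.1 hw, ?_⟩
        by_cases h1 : R ≤ p
        · left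
          exact (base_le hR1 h1 hA0 hA').trans hmono
        · by_cases h2 : R ≤ q
          · right; left
            exact (base_le hR1 h2 hB0 hB').trans hmono
          · right; right
            refine (base_le hR1 ?_ hC0 hC').trans hmono
            by_contra h3
            exact hlt ⟨not_le.1 h1, not_le.1 h2, not_le.1 h3⟩
    have h2 : ((Solutions S N).ncard : ℝ) ≤ F.ncard +
        (Pool.Agent.W232.FC.SolC N ((N : ℝ) ^ δ)).ncard := by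
      have h3 := Set.ncard_le_ncard hsub (hF.union (Pool.Agent.W232.FC.SolC_finite _ _))
      exact_mod_cast h3.trans (Set.ncard_union_le _ _)
    have h3 : (0 : ℝ) ≤ F.ncard := by positivity
    have h4 : (0 : ℝ) ≤ (Solutions S N₂).ncard := by positivity
    nlinarith


end Pool.Agent.W508.Beal
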