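import Mathlib
import Pool.Agent.W229.V.Stmts

/-! # Northcott's theorem for projective points of bounded degree -/

set_option autoImplicit false

namespace Pool.Agent.W508.VojN

open Module Height Pool.Agent.W229.V NumberField
open scoped LinearAlgebra.Projectivization

/-- a conjugate is bounded by the height -/
theorem norm_le_mulHeight₁ {K : Type*} [Field K] [NumberField K] (z : K) (φ : K →+* ℂ) :
    ‖φ z‖ ≤ mulHeight₁ z := by
  rw [NumberField.mulHeight₁_eq]
  have h1 : ∀ v : InfinitePlace K, (1 : ℝ) ≤ max (v z) 1 ^ v.mult :=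
    fun v => one_le_pow₀ (le_max_right _ _)
  have h2 : (1 : ℝ) ≤ ∏ᶠ v : FinitePlace K, max (v z) 1 :=
    finprod_induction (fun x : ℝ => 1 ≤ x) le_rfl (fun x y hx hy => one_le_mul_of_one_le_of_one_le hx hy)
      (fun v => le_max_right _ _)
  have h3 : ‖φ z‖ ≤ ∏ v : InfinitePlace K, max (v z) 1 ^ v.mult := by
    classical
    calc ‖φ z‖ = (InfinitePlace.mk φ) z := (InfinitePlace.apply φ z).symm
      _ ≤ max ((InfinitePlace.mk φ) z) 1 := le_max_left _ _
      _ ≤ max ((InfinitePlace.mk φ) z) 1 ^ (InfinitePlace.mk φ).mult :=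
          le_self_pow₀ (le_max_right _ _) (InfinitePlace.mult_ne_zero)
      _ ≤ ∏ v : InfinitePlace K, max (v z) 1 ^ v.mult := by
          rw [← Finset.mul_prod_erase Finset.univ _ (Finset.mem_univ (InfinitePlace.mk φ))]
          apply le_mul_of_one_le_right
          · exact pow_nonneg (le_trans zero_le_one (le_max_right _ _)) _
          · exact Finset.prod_induction _ (fun x : ℝ => 1 ≤ x)
              (fun x y hx hy => one_le_mul_of_one_le_of_one_le hx hy) le_rfl (fun v _ => h1 v)
  calc ‖φ z‖ ≤ (∏ v : InfinitePlace K, max (v z) 1 ^ v.mult) * 1 := by rw [mul_one]; exact h3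
    _ ≤ _ := by
      gcongr

/-- the finite set of algebraic integers of bounded degree with bounded conjugates -/
theorem finite_integers (Ω : Type*) [Field Ω] [CharZero Ω] (D : ℕ) (B : ℝ) :
    ∃ s : Set Ω, s.Finite ∧ ∀ (K : Type) (_ : Field K) (_ : NumberField K) (f : K →+* Ω),
      finrank ℚ K ≤ D → ∀ w : K, IsIntegral ℤ w → (∀ φ : K →+* ℂ, ‖φ w‖ ≤ B) → f w ∈ s := by
  classical
  let C := Nat.ceil (max B 1 ^ D * 2 ^ D)
  refine ⟨_, Polynomial.bUnion_roots_finite (algebraMap ℤ Ω) D (Set.finite_Icc (-C : ℤ) C), ?_⟩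
  intro K _ _ f hK w hw hφ
  simp_rw [Set.mem_iUnion]
  have h_map := minpoly.isIntegrallyClosed_eq_field_fractions' ℚ hw
  refine ⟨minpoly ℤ w, ⟨?_, fun i => ?_⟩, ?_⟩
  · rw [← (minpoly.monic hw).natDegree_map (algebraMap ℤ ℚ), ← h_map]
    exact (minpoly.natDegree_le w).trans hK
  · rw [Set.mem_Icc, ← abs_le, ← @Int.cast_le ℝ]
    refine (Eq.trans_le ?_ <| (NumberField.Embeddings.coeff_bdd_of_norm_le hφ i).trans ?_).trans
      (Nat.le_ceil _)
    · rw [h_map, Polynomial.coeff_map, eq_intCast, Int.norm_cast_rat, Int.norm_eq_abs, Int.cast_abs]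
    · have hch : (((finrank ℚ K).choose (finrank ℚ K / 2) : ℕ) : ℝ) ≤ 2 ^ D := by
        have := Nat.choose_le_two_pow (finrank ℚ K) (finrank ℚ K / 2)
        calc (((finrank ℚ K).choose (finrank ℚ K / 2) : ℕ) : ℝ) ≤ ((2 ^ finrank ℚ K : ℕ) : ℝ) := by
              exact_mod_cast this
          _ = 2 ^ finrank ℚ K := by push_cast; rfl
          _ ≤ 2 ^ D := pow_le_pow_right₀ (by norm_num) hK
      have hB : max B 1 ^ finrank ℚ K ≤ max B 1 ^ D :=
        pow_le_pow_right₀ (le_max_right _ _) hK
      exact mul_le_mul hB hch (by positivity) (by positivity)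
  · have hne : (minpoly ℤ w).map (algebraMap ℤ Ω) ≠ 0 :=
      ((minpoly.monic hw).map _).ne_zero
    simp only [Finset.mem_coe, Multiset.mem_toFinset, Polynomial.mem_roots hne, Polynomial.IsRoot.def,
      Polynomial.eval_map]
    have h1 := minpoly.aeval ℤ w
    have h2 := congrArg f h1
    rw [map_zero, Polynomial.aeval_def, Polynomial.hom_eval₂] at h2
    rw [← h2]
    congr 1
    exact RingHom.ext_int _ _

section

variable {k : Type} [Field k] [NumberField k] {N : ℕ}

theorem coord_one (P : ℙ (AlgebraicClosure k) (Fin (N + 1) → AlgebraicClosure k)) :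
    ∃ j, coord P j = 1 := by
  refine ⟨(Function.ne_iff.mp P.rep_nonzero).choose, ?_⟩
  have h := (Function.ne_iff.mp P.rep_nonzero).choose_spec
  apply Subtype.ext
  exact div_self h

theorem coord_injective : Function.Injective
    (fun P : ℙ (AlgebraicClosure k) (Fin (N + 1) → AlgebraicClosure k) =>
      fun i => (coord P i : AlgebraicClosure k)) := by
  intro P Q h
  have h' : ∀ i, (coord P i : AlgebraicClosure k) = coord Q i := fun i => congrFun h i
  have hP := (Function.ne_iff.mp P.rep_nonzero).choose_spec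
  have hQ := (Function.ne_iff.mp Q.rep_nonzero).choose_spec
  set p := P.rep (Function.ne_iff.mp P.rep_nonzero).choose with hp
  set q := Q.rep (Function.ne_iff.mp Q.rep_nonzero).choose with hq
  have hp0 : p ≠ 0 := hP
  have hq0 : q ≠ 0 := hQ
  rw [← P.mk_rep, ← Q.mk_rep, Projectivization.mk_eq_mk_iff']
  refine ⟨p / q, ?_⟩
  ext i
  have h1 : P.rep i / p = Q.rep i / q := h' i
  rw [Pi.smul_apply, smul_eq_mul]
  field_simp
  field_simp at h1
  linear_combination -h1

theorem taskN : TaskN := by
  intro k _ _ N d T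
  set M : ℝ := Real.exp (d * max T 0) with hM
  obtain ⟨s, hs, hmem⟩ := finite_integers (AlgebraicClosure k) (finrank ℚ k * d) (M * M)
  -- the coordinates lie in a finite set
  set S : Set (AlgebraicClosure k) := ⋃ q ∈ Set.Icc 1 ⌊M⌋₊,
    (fun w : AlgebraicClosure k => w / (q : AlgebraicClosure k)) '' s with hS
  have hSfin : S.Finite := (Set.finite_Icc _ _).biUnion fun q _ => hs.image _
  refine Set.Finite.subset (Set.Finite.preimage coord_injective.injOn
    (Set.Finite.pi' fun _ : Fin (N + 1) => hSfin)) ?_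
  rintro P ⟨hd, hT⟩ i
  have hdpos : 0 < deg P := finrank_pos
  have hlog : logHeight (coord P) ≤ d * max T 0 := by
    have h1 : logHeight (coord P) = deg P * ht P := by
      unfold ht
      field_simp
    rw [h1]
    calc (deg P : ℝ) * ht P ≤ deg P * max T 0 := by
          gcongr
          exact hT.trans (le_max_left _ _)
      _ ≤ d * max T 0 := by
          gcongr
  have hmul : mulHeight (coord P) ≤ M := by
    rw [hM, ← Real.log_le_iff_le_exp (mulHeight_pos _)]
    exact hlog
  obtain ⟨j, hj⟩ := coord_one P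
  have hz : mulHeight₁ (coord P i) ≤ M := by
    refine le_trans ?_ hmul
    rw [mulHeight₁_eq_mulHeight]
    have : ![coord P i, 1] = coord P ∘ ![i, j] := by
      ext a
      fin_cases a
      · rfl
      · simp [hj]
    rw [this]
    exact mulHeight_comp_le _ _
  obtain ⟨q, hq0, hq1, hq2⟩ := NumberField.exists_nat_le_mulHeight₁ (coord P i)
  have hqM : (q : ℝ) ≤ M := hq1.trans hz
  have hw := hmem (ptField P) inferInstance inferInstance (ptField P).val.toRingHom ?_
    (q * coord P i) hq2 ?_
  · simp only [hS, Set.mem_iUnion]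
    refine ⟨q, ⟨Nat.one_le_iff_ne_zero.2 hq0, Nat.le_floor hqM⟩, _, hw, ?_⟩
    have hq' : (q : AlgebraicClosure k) ≠ 0 := by exact_mod_cast hq0
    simp
    field_simp
  · have : finrank ℚ k * finrank k (ptField P) = finrank ℚ (ptField P) := finrank_mul_finrank ℚ k _
    rw [← this]
    exact Nat.mul_le_mul_left _ hd
  · intro φ
    rw [map_mul, norm_mul, map_natCast]
    have h1 : ‖φ (coord P i)‖ ≤ M := (norm_le_mulHeight₁ _ φ).trans hz
    have h2 : ‖(q : ℂ)‖ ≤ M := by simpa using hqM
    exact mul_le_mul h2 h1 (norm_nonneg _) (Real.exp_pos _).le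

end

end Pool.Agent.W508.VojN
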