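import Pool.Agent.W489.Stubs
import Pool.Agent.Helper684.GX.Wf.Holo

/-!
Complex submanifolds given locally by holomorphic submersions have small holomorphic charts.
-/

set_option autoImplicit false

open Metric Set Topology

namespace Pool.Agent.W508.T4a

open H113G

/-- a linear map to `ℂ^n` that is injective on the kernel of a surjective linear map -/
theorem exists_complement {m k : ℕ} (f' : (Fin m → ℂ) →L[ℂ] (Fin k → ℂ))
    (hs : Function.Surjective ⇑f') :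
    ∃ (n : ℕ) (π : (Fin m → ℂ) →L[ℂ] (Fin n → ℂ)) (L : (Fin m → ℂ) ≃L[ℂ] (Fin k → ℂ) × (Fin n → ℂ)),
      (L : (Fin m → ℂ) →L[ℂ] (Fin k → ℂ) × (Fin n → ℂ)) = f'.prod π := by
  classical
  set K := LinearMap.ker (f' : (Fin m → ℂ) →ₗ[ℂ] (Fin k → ℂ)) with hK
  obtain ⟨P, hP⟩ := LinearMap.exists_leftInverse_of_injective K.subtype (by simp)
  let e : K ≃ₗ[ℂ] (Fin (Module.finrank ℂ K) → ℂ) := LinearEquiv.ofFinrankEq _ _ (by simp)
  let π₀ : (Fin m → ℂ) →ₗ[ℂ] (Fin (Module.finrank ℂ K) → ℂ) := e.toLinearMap ∘ₗ P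
  have hdim : Module.finrank ℂ (Fin m → ℂ) =
      Module.finrank ℂ ((Fin k → ℂ) × (Fin (Module.finrank ℂ K) → ℂ)) := by
    have h1 := LinearMap.finrank_range_add_finrank_ker (f' : (Fin m → ℂ) →ₗ[ℂ] (Fin k → ℂ))
    have h2 : LinearMap.range (f' : (Fin m → ℂ) →ₗ[ℂ] (Fin k → ℂ)) = ⊤ :=
      LinearMap.range_eq_top.2 hs
    rw [h2, finrank_top] at h1
    rw [← h1, Module.finrank_prod]
    simp only [Module.finrank_fin_fun]
    rfl
  let L₀ : (Fin m → ℂ) →ₗ[ℂ] (Fin k → ℂ) × (Fin (Module.finrank ℂ K) → ℂ) :=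
    (f' : (Fin m → ℂ) →ₗ[ℂ] (Fin k → ℂ)).prod π₀
  have hinj : Function.Injective L₀ := by
    rw [← LinearMap.ker_eq_bot, LinearMap.ker_eq_bot']
    intro v hv
    have h1 : f' v = 0 := congrArg Prod.fst hv
    have h2 : e (P v) = 0 := congrArg Prod.snd hv
    have h3 : P v = 0 := by simpa using h2
    have hvK : v ∈ K := by rw [hK, LinearMap.mem_ker]; exact h1
    have h4 : P (K.subtype ⟨v, hvK⟩) = ⟨v, hvK⟩ := by
      have := congrArg (fun g => g ⟨v, hvK⟩) hP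
      simpa using this
    have h5 : P v = ⟨v, hvK⟩ := h4
    rw [h3] at h5
    exact (congrArg Subtype.val h5).symm
  let L₁ : (Fin m → ℂ) ≃ₗ[ℂ] (Fin k → ℂ) × (Fin (Module.finrank ℂ K) → ℂ) :=
    LinearMap.linearEquivOfInjective L₀ hinj hdim
  refine ⟨Module.finrank ℂ K, LinearMap.toContinuousLinearMap π₀,
    L₁.toContinuousLinearEquiv, ?_⟩
  ext v : 1
  rfl

theorem t4a : W489.S_T4a := by
  intro m Y hY p hp N hN
  obtain ⟨U, hU, hpU, k, F, hF, hsurj, hYU⟩ := hY p hp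
  obtain ⟨n, π, L, hL⟩ := exists_complement (fderiv ℂ F p) (hsurj p hpU)
  have hFp : F p = 0 := by
    have : p ∈ Y ∩ U := ⟨hp, hpU⟩
    rw [hYU] at this
    exact this.2
  set Φ : (Fin m → ℂ) → (Fin k → ℂ) × (Fin n → ℂ) := fun x => (F x, π (x - p)) with hΦ
  have hFc : ContDiffAt ℂ 1 F p := by
    have := Pool.Agent.Helper684.GX.Wf.Holo.contDiffOn_of_differentiableOn hU hF 1
    exact_mod_cast this.contDiffAt (hU.mem_nhds hpU)
  have hΦc : ContDiffAt ℂ 1 Φ p := by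
    refine hFc.prodMk ?_
    exact (π.contDiff.comp (contDiff_id.sub contDiff_const)).contDiffAt
  have hΦ' : HasFDerivAt Φ (L : (Fin m → ℂ) →L[ℂ] (Fin k → ℂ) × (Fin n → ℂ)) p := by
    rw [hL]
    refine (hF.differentiableAt (hU.mem_nhds hpU)).hasFDerivAt.prodMk ?_
    have h1 : HasFDerivAt (fun x : Fin m → ℂ => x - p) (ContinuousLinearMap.id ℂ _) p :=
      (hasFDerivAt_id p).sub_const p
    have h2 := π.hasFDerivAt.comp p h1
    simpa using h2
  set H := hΦc.toOpenPartialHomeomorph Φ hΦ' one_ne_zero with hH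
  have hHc : ⇑H = Φ := rfl
  have hpH : p ∈ H.source := hΦc.mem_toOpenPartialHomeomorph_source hΦ' one_ne_zero
  have hΦp : Φ p = 0 := by simp [hΦ, hFp]
  have h0H : (0 : (Fin k → ℂ) × (Fin n → ℂ)) ∈ H.target := by
    have := H.map_source hpH
    rwa [hHc, hΦp] at this
  have hGc : ContDiffAt ℂ 1 H.symm (0 : (Fin k → ℂ) × (Fin n → ℂ)) := by
    have := hΦc.to_localInverse hΦ' one_ne_zero
    rw [hΦp] at this
    exact this
  have hG0 : H.symm (0 : (Fin k → ℂ) × (Fin n → ℂ)) = p := by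
    have := H.left_inv hpH
    rwa [hHc, hΦp] at this
  set W : Set (Fin m → ℂ) := interior N ∩ U with hW
  have hWo : IsOpen W := isOpen_interior.inter hU
  have hpW : p ∈ W := ⟨mem_interior_iff_mem_nhds.2 hN, hpU⟩
  have hev : ∀ᶠ y in 𝓝 (0 : (Fin k → ℂ) × (Fin n → ℂ)),
      y ∈ H.target ∧ H.symm y ∈ W ∧ DifferentiableAt ℂ H.symm y := by
    have e1 : ∀ᶠ y in 𝓝 (0 : (Fin k → ℂ) × (Fin n → ℂ)), y ∈ H.target :=
      H.open_target.mem_nhds h0H
    have e2 : ∀ᶠ y in 𝓝 (0 : (Fin k → ℂ) × (Fin n → ℂ)), H.symm y ∈ W := by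
      have hc : ContinuousAt H.symm (0 : (Fin k → ℂ) × (Fin n → ℂ)) := hGc.continuousAt
      exact hc.preimage_mem_nhds (by rw [hG0]; exact hWo.mem_nhds hpW)
    have e3 : ∀ᶠ y in 𝓝 (0 : (Fin k → ℂ) × (Fin n → ℂ)), DifferentiableAt ℂ H.symm y := by
      filter_upwards [hGc.eventually (by simp)] with y hy
      exact hy.differentiableAt one_ne_zero
    filter_upwards [e1, e2, e3] with y h1 h2 h3
    exact ⟨h1, h2, h3⟩
  obtain ⟨r, hr, hball⟩ := Metric.eventually_nhds_iff_ball.1 hev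
  have hrC : (r : ℂ) ≠ 0 := by exact_mod_cast hr.ne'
  have hscale : ∀ x ∈ ball (0 : Fin n → ℂ) 1,
      ((0 : Fin k → ℂ), (r : ℂ) • x) ∈ ball (0 : (Fin k → ℂ) × (Fin n → ℂ)) r := by
    intro x hx
    rw [mem_ball_zero_iff] at hx ⊢
    rw [Prod.norm_def]
    simp only [norm_zero, norm_smul, Complex.norm_real, Real.norm_eq_abs, abs_of_pos hr]
    rw [max_lt_iff]
    exact ⟨hr, by nlinarith⟩
  refine ⟨n, fun x => H.symm (0, (r : ℂ) • x), fun y => (r : ℂ)⁻¹ • π (y - p),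
    H.source ∩ Φ ⁻¹' (ball 0 r) ∩ W, ?_, ?_, ?_, ?_, ?_, ?_, ?_, ?_⟩
  · have h1 : IsOpen (H.source ∩ H ⁻¹' (ball 0 r)) := H.isOpen_inter_preimage isOpen_ball
    rw [hHc] at h1
    exact h1.inter hWo
  · refine ⟨⟨hpH, ?_⟩, hpW⟩
    rw [mem_preimage, hΦp]
    exact mem_ball_self hr
  · exact fun y hy => interior_subset hy.2.1
  · intro x hx
    have h1 := (hball _ (hscale x hx)).2.2
    have h2 : DifferentiableAt ℂ (fun x : Fin n → ℂ => ((0 : Fin k → ℂ), (r : ℂ) • x)) x := by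
      fun_prop
    exact (DifferentiableAt.comp x h1 h2).differentiableWithinAt
  · show H.symm (0, (r : ℂ) • (0 : Fin n → ℂ)) = p
    rw [smul_zero]
    exact hG0
  · ext y
    constructor
    · rintro ⟨x, hx, rfl⟩
      have hb := hscale x hx
      obtain ⟨h1, h2, -⟩ := hball _ hb
      have h3 : Φ (H.symm (0, (r : ℂ) • x)) = (0, (r : ℂ) • x) := by
        have := H.right_inv h1
        rwa [hHc] at this
      refine ⟨?_, ⟨⟨H.map_target h1, ?_⟩, h2⟩⟩
      · have h4 : H.symm (0, (r : ℂ) • x) ∈ U ∩ F ⁻¹' {0} :=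
          ⟨h2.2, congrArg Prod.fst h3⟩
        rw [← hYU] at h4
        exact h4.1
      · rw [mem_preimage, h3]
        exact hb
    · rintro ⟨hyY, ⟨hyS, hyB⟩, hyW⟩
      have hFy : F y = 0 := by
        have : y ∈ Y ∩ U := ⟨hyY, hyW.2⟩
        rw [hYU] at this
        exact this.2
      have hnorm : ‖π (y - p)‖ < r := by
        rw [mem_preimage, mem_ball_zero_iff, Prod.norm_def, max_lt_iff] at hyB
        exact hyB.2
      refine ⟨(r : ℂ)⁻¹ • π (y - p), ?_, ?_⟩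
      · rw [mem_ball_zero_iff, norm_smul, norm_inv, Complex.norm_real, Real.norm_eq_abs,
          abs_of_pos hr, inv_mul_lt_iff₀ hr, mul_one]
        exact hnorm
      · show H.symm (0, (r : ℂ) • (r : ℂ)⁻¹ • π (y - p)) = y
        rw [smul_inv_smul₀ hrC]
        have h5 : ((0 : Fin k → ℂ), π (y - p)) = H y := by
          rw [hHc, hΦ]
          simp [hFy]
        rw [h5]
        exact H.left_inv hyS
  · fun_prop
  · intro x hx
    have hb := hscale x hx
    obtain ⟨h1, -, -⟩ := hball _ hb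
    have h3 : Φ (H.symm (0, (r : ℂ) • x)) = (0, (r : ℂ) • x) := by
      have := H.right_inv h1
      rwa [hHc] at this
    have h4 : π (H.symm (0, (r : ℂ) • x) - p) = (r : ℂ) • x := congrArg Prod.snd h3
    show (r : ℂ)⁻¹ • π (H.symm (0, (r : ℂ) • x) - p) = x
    rw [h4, inv_smul_smul₀ hrC]

end Pool.Agent.W508.T4a
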